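import Mathlib

/-!
Free graded commutative algebras over `ℚ` (MP_3de1ca_gt, helper582).
-/

namespace Pool.H582SA

open Polynomial

/-- the graded commutation relations `i j = σ i j • j i` on generators -/
inductive Rel {ι : Type} (σ : ι → ι → ℚ) : FreeAlgebra ℚ ι → FreeAlgebra ℚ ι → Prop
  | comm (i j : ι) : Rel σ (FreeAlgebra.ι ℚ i * FreeAlgebra.ι ℚ j)
      (σ i j • (FreeAlgebra.ι ℚ j * FreeAlgebra.ι ℚ i))

/-- the algebra generated by `ι` with the relations `i j = σ i j • j i` -/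
def FGC {ι : Type} (σ : ι → ι → ℚ) : Type := RingQuot (Rel σ)

variable {ι : Type} {σ : ι → ι → ℚ}

noncomputable instance : Ring (FGC σ) := inferInstanceAs (Ring (RingQuot (Rel σ)))

noncomputable instance : Algebra ℚ (FGC σ) := inferInstanceAs (Algebra ℚ (RingQuot (Rel σ)))

/-- the quotient map from the free algebra -/
noncomputable def mk (σ : ι → ι → ℚ) : FreeAlgebra ℚ ι →ₐ[ℚ] FGC σ :=
  RingQuot.mkAlgHom ℚ (Rel σ)

theorem mk_surj : Function.Surjective (mk σ) := RingQuot.mkAlgHom_surjective ℚ (Rel σ)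

theorem mk_rel {x y : FreeAlgebra ℚ ι} (h : Rel σ x y) : mk σ x = mk σ y :=
  RingQuot.mkAlgHom_rel ℚ h

/-- the generators -/
noncomputable def gen (σ : ι → ι → ℚ) (i : ι) : FGC σ := mk σ (FreeAlgebra.ι ℚ i)

/-- the monomials -/
noncomputable def mono (σ : ι → ι → ℚ) (L : List ι) : FGC σ := (L.map (gen σ)).prod

theorem gen_comm (i j : ι) : gen σ i * gen σ j = σ i j • (gen σ j * gen σ i) := by
  unfold gen
  rw [← map_mul, mk_rel (Rel.comm i j), map_smul, map_mul]

theorem FGC.induct {P : FGC σ → Prop} (hs : ∀ r : ℚ, P (algebraMap ℚ _ r))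
    (hg : ∀ i, P (gen σ i)) (hm : ∀ a b, P a → P b → P (a * b))
    (ha : ∀ a b, P a → P b → P (a + b)) (a : FGC σ) : P a := by
  obtain ⟨x, rfl⟩ := mk_surj a
  induction x using FreeAlgebra.induction with
  | grade0 r => simpa using hs r
  | grade1 i => exact hg i
  | mul a b h1 h2 => rw [map_mul]; exact hm _ _ h1 h2
  | add a b h1 h2 => rw [map_add]; exact ha _ _ h1 h2

@[simp] theorem mono_nil : mono σ [] = 1 := rfl
@[simp] theorem mono_cons (i : ι) (L : List ι) : mono σ (i :: L) = gen σ i * mono σ L := by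
  simp [mono]
theorem mono_append (L M : List ι) : mono σ (L ++ M) = mono σ L * mono σ M := by
  simp [mono]
theorem mono_single (i : ι) : mono σ [i] = gen σ i := by simp [mono]

/-- span of the monomials with property `S` -/
noncomputable def spanOf (σ : ι → ι → ℚ) (S : List ι → Prop) : Submodule ℚ (FGC σ) :=
  Submodule.span ℚ (mono σ '' {L | S L})

theorem mono_mem {S : List ι → Prop} {L : List ι} (h : S L) : mono σ L ∈ spanOf σ S :=
  Submodule.subset_span ⟨L, h, rfl⟩

theorem spanOf_induct {S : List ι → Prop} {P : FGC σ → Prop}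
    (hm : ∀ L, S L → P (mono σ L)) (h0 : P 0) (ha : ∀ a b, P a → P b → P (a + b))
    (hc : ∀ (r : ℚ) a, P a → P (r • a)) {a : FGC σ} (h : a ∈ spanOf σ S) : P a := by
  unfold spanOf at h
  induction h using Submodule.span_induction with
  | mem x hx => obtain ⟨L, hL, rfl⟩ := hx; exact hm L hL
  | zero => exact h0
  | add x y _ _ hx hy => exact ha x y hx hy
  | smul r x _ hx => exact hc r x hx

theorem spanOf_mono {S T : List ι → Prop} (h : ∀ L, S L → T L) : spanOf σ S ≤ spanOf σ T := by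
  apply Submodule.span_mono
  rintro _ ⟨L, hL, rfl⟩
  exact ⟨L, h L hL, rfl⟩

theorem spanOf_mul {S T U : List ι → Prop} (h : ∀ L M, S L → T M → U (L ++ M))
    {a b : FGC σ} (ha : a ∈ spanOf σ S) (hb : b ∈ spanOf σ T) : a * b ∈ spanOf σ U := by
  refine spanOf_induct (P := fun a => a * b ∈ spanOf σ U) ?_ ?_ ?_ ?_ ha
  · intro L hL
    refine spanOf_induct (P := fun b => mono σ L * b ∈ spanOf σ U) ?_ ?_ ?_ ?_ hb
    · intro M hM
      rw [← mono_append]
      exact mono_mem (h L M hL hM)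
    · simp
    · intro a b h1 h2; rw [mul_add]; exact add_mem h1 h2
    · intro r a h1; rw [mul_smul_comm]; exact Submodule.smul_mem _ _ h1
  · simp
  · intro a b h1 h2; rw [add_mul]; exact add_mem h1 h2
  · intro r a h1; rw [smul_mul_assoc]; exact Submodule.smul_mem _ _ h1

theorem mem_top_span (a : FGC σ) : a ∈ spanOf σ (fun _ => True) := by
  refine FGC.induct (P := fun a => a ∈ spanOf σ (fun _ => True)) ?_ ?_ ?_ ?_ a
  · intro r
    rw [Algebra.algebraMap_eq_smul_one]
    exact Submodule.smul_mem _ _ (by rw [← mono_nil]; exact mono_mem trivial)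
  · intro i
    rw [← mono_single]
    exact mono_mem trivial
  · intro a b h1 h2
    exact spanOf_mul (fun _ _ _ _ => trivial) h1 h2
  · intro a b h1 h2
    exact add_mem h1 h2

/-- linear induction on monomials -/
theorem mono_induct {P : FGC σ → Prop}
    (hm : ∀ L, P (mono σ L)) (h0 : P 0) (ha : ∀ a b, P a → P b → P (a + b))
    (hc : ∀ (r : ℚ) a, P a → P (r • a)) (a : FGC σ) : P a :=
  spanOf_induct (S := fun _ => True) (fun L _ => hm L) h0 ha hc (mem_top_span a)

/-- the universal property -/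
noncomputable def lift {B : Type} [Ring B] [Algebra ℚ B] (f : ι → B)
    (hf : ∀ i j, f i * f j = σ i j • (f j * f i)) : FGC σ →ₐ[ℚ] B :=
  RingQuot.liftAlgHom ℚ ⟨FreeAlgebra.lift ℚ f, by
    intro x y h
    cases h with
    | comm i j => simp [hf i j]⟩

theorem lift_mk {B : Type} [Ring B] [Algebra ℚ B] (f : ι → B)
    (hf : ∀ i j, f i * f j = σ i j • (f j * f i)) (x : FreeAlgebra ℚ ι) :
    lift f hf (mk σ x) = FreeAlgebra.lift ℚ f x :=
  RingQuot.liftAlgHom_mkAlgHom_apply ℚ _ _ x

@[simp] theorem lift_gen {B : Type} [Ring B] [Algebra ℚ B] (f : ι → B)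
    (hf : ∀ i j, f i * f j = σ i j • (f j * f i)) (i : ι) : lift f hf (gen σ i) = f i := by
  rw [gen, lift_mk, FreeAlgebra.lift_ι_apply]

/-- the sign rule attached to a degree (or parity) function -/
def sg (deg : ι → ℕ) (i j : ι) : ℚ := (-1) ^ (deg i * deg j)

/-- homogeneous elements of degree `n` -/
noncomputable def homog (σ : ι → ι → ℚ) (deg : ι → ℕ) (n : ℕ) : Submodule ℚ (FGC σ) :=
  spanOf σ (fun L => (L.map deg).sum = n)

section parity

variable (p : ι → ℕ)

/-- elements of parity `n` -/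
noncomputable def Par (n : ℕ) : Submodule ℚ (FGC (sg p)) :=
  spanOf (sg p) (fun L => (L.map p).sum % 2 = n % 2)

variable {p}

theorem neg_one_pow_mod {a b : ℕ} (h : a % 2 = b % 2) : ((-1 : ℚ)) ^ a = (-1) ^ b := by
  rw [neg_one_pow_eq_pow_mod_two, h, ← neg_one_pow_eq_pow_mod_two]

theorem gen_mul_mono (i : ι) (L : List ι) :
    gen (sg p) i * mono (sg p) L
      = ((-1 : ℚ) ^ (p i * (L.map p).sum)) • (mono (sg p) L * gen (sg p) i) := by
  induction L with
  | nil => simp
  | cons j L ih =>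
    rw [mono_cons, ← mul_assoc, gen_comm, smul_mul_assoc, mul_assoc, ih, mul_smul_comm,
      smul_smul, ← mul_assoc]
    congr 1
    simp [sg, mul_add, pow_add]

theorem gen_mul_par {n : ℕ} {a : FGC (sg p)} (ha : a ∈ Par p n) (i : ι) :
    gen (sg p) i * a = ((-1 : ℚ) ^ (p i * n)) • (a * gen (sg p) i) := by
  refine spanOf_induct (P := fun a => gen (sg p) i * a
    = ((-1 : ℚ) ^ (p i * n)) • (a * gen (sg p) i)) ?_ ?_ ?_ ?_ ha
  · intro L hL
    rw [gen_mul_mono]
    congr 1
    rw [pow_mul, pow_mul]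
    rcases Nat.even_or_odd (p i) with h | h
    · rw [h.neg_one_pow]; simp
    · rw [h.neg_one_pow]; exact neg_one_pow_mod hL
  · simp
  · intro a b h1 h2; rw [mul_add, h1, h2, add_mul, smul_add]
  · intro r a h1; rw [mul_smul_comm, h1, smul_mul_assoc, smul_comm]

/-- the sign automorphism -/
noncomputable def tau (p : ι → ℕ) : FGC (sg p) →ₐ[ℚ] FGC (sg p) :=
  lift (fun i => ((-1 : ℚ) ^ (p i)) • gen (sg p) i) (by
    intro i j
    rw [smul_mul_smul_comm, smul_mul_smul_comm, gen_comm, smul_smul, smul_smul]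
    congr 1
    ring)

theorem tau_gen (i : ι) : tau p (gen (sg p) i) = ((-1 : ℚ) ^ (p i)) • gen (sg p) i := by
  simp [tau]

theorem tau_mono (L : List ι) :
    tau p (mono (sg p) L) = ((-1 : ℚ) ^ ((L.map p).sum)) • mono (sg p) L := by
  induction L with
  | nil => simp
  | cons j L ih =>
    rw [mono_cons, map_mul, ih, tau_gen, smul_mul_smul_comm]
    congr 1
    simp [pow_add]

theorem tau_par {n : ℕ} {a : FGC (sg p)} (ha : a ∈ Par p n) :
    tau p a = ((-1 : ℚ) ^ n) • a := by
  refine spanOf_induct (P := fun a => tau p a = ((-1 : ℚ) ^ n) • a) ?_ ?_ ?_ ?_ ha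
  · intro L hL
    rw [tau_mono]
    congr 1
    exact neg_one_pow_mod hL
  · simp
  · intro a b h1 h2; rw [map_add, h1, h2, smul_add]
  · intro r a h1; rw [map_smul, h1, smul_comm]

/-- auxiliary homomorphism to upper triangular matrices -/
noncomputable def Theta (D : ι → FGC (sg p)) (hD : ∀ i, D i ∈ Par p (p i + 1)) :
    FGC (sg p) →ₐ[ℚ] Matrix (Fin 2) (Fin 2) (FGC (sg p)) :=
  lift (fun i => !![((-1 : ℚ) ^ (p i)) • gen (sg p) i, D i; 0, gen (sg p) i]) (by
    intro i j
    have e1 : ((-1 : ℚ) ^ (p i)) • gen (sg p) i * (((-1 : ℚ) ^ (p j)) • gen (sg p) j)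
        = sg p i j • (((-1 : ℚ) ^ (p j)) • gen (sg p) j * (((-1 : ℚ) ^ (p i)) • gen (sg p) i)) := by
      rw [smul_mul_smul_comm, smul_mul_smul_comm, gen_comm, smul_smul, smul_smul]
      congr 1
      ring
    have e2 : ((-1 : ℚ) ^ (p i)) • gen (sg p) i * D j + D i * gen (sg p) j
        = sg p i j • (((-1 : ℚ) ^ (p j)) • gen (sg p) j * D i + D j * gen (sg p) i) := by
      rw [smul_mul_assoc, gen_mul_par (hD j), smul_mul_assoc, gen_mul_par (hD i), smul_add,
        smul_smul, smul_smul, smul_smul, add_comm]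
      congr 1
      · have : sg p i j * (-1 : ℚ) ^ p j * (-1) ^ (p j * (p i + 1)) = 1 := by
          unfold sg
          rw [← pow_add, ← pow_add]
          apply Even.neg_one_pow
          refine ⟨p i * p j + p j, by ring⟩
        rw [this, one_smul]
      · congr 1
        unfold sg
        rw [← pow_add]
        apply neg_one_pow_mod
        have : p i + p i * (p j + 1) = p i * p j + 2 * p i := by ring
        omega
    ext a b
    fin_cases a <;> fin_cases b
    · simp only [Matrix.mul_apply, Fin.sum_univ_two, Matrix.smul_apply]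
      simpa [-Algebra.smul_mul_assoc, -Algebra.mul_smul_comm] using e1
    · simpa [Matrix.mul_apply, Fin.sum_univ_two] using e2
    · simp [Matrix.mul_apply, Fin.sum_univ_two]
    · simpa [Matrix.mul_apply, Fin.sum_univ_two] using gen_comm i j)

theorem Theta_spec (D : ι → FGC (sg p)) (hD : ∀ i, D i ∈ Par p (p i + 1)) (a : FGC (sg p)) :
    Theta D hD a 0 0 = tau p a ∧ Theta D hD a 1 0 = 0 ∧ Theta D hD a 1 1 = a := by
  refine FGC.induct (P := fun a => Theta D hD a 0 0 = tau p a ∧ Theta D hD a 1 0 = 0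
    ∧ Theta D hD a 1 1 = a) ?_ ?_ ?_ ?_ a
  · intro r
    rw [AlgHom.commutes, AlgHom.commutes]
    simp [Matrix.algebraMap_matrix_apply]
  · intro i
    simp [Theta, tau_gen]
  · rintro a b ⟨h1, h2, h3⟩ ⟨g1, g2, g3⟩
    simp [Matrix.mul_apply, Fin.sum_univ_two, h1, h2, h3, g1, g2, g3]
  · rintro a b ⟨h1, h2, h3⟩ ⟨g1, g2, g3⟩
    simp [h1, h2, h3, g1, g2, g3]

/-- the odd derivation with prescribed values on generators -/
noncomputable def mkD (D : ι → FGC (sg p)) (hD : ∀ i, D i ∈ Par p (p i + 1)) :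
    FGC (sg p) →ₗ[ℚ] FGC (sg p) where
  toFun a := Theta D hD a 0 1
  map_add' a b := by simp
  map_smul' r a := by simp

theorem mkD_gen (D : ι → FGC (sg p)) (hD : ∀ i, D i ∈ Par p (p i + 1)) (i : ι) :
    mkD D hD (gen (sg p) i) = D i := by
  simp [mkD, Theta]

theorem mkD_mul (D : ι → FGC (sg p)) (hD : ∀ i, D i ∈ Par p (p i + 1)) (a b : FGC (sg p)) :
    mkD D hD (a * b) = mkD D hD a * b + tau p a * mkD D hD b := by
  obtain ⟨h1, h2, h3⟩ := Theta_spec D hD a
  obtain ⟨g1, g2, g3⟩ := Theta_spec D hD b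
  simp only [mkD, LinearMap.coe_mk, AddHom.coe_mk, map_mul, Matrix.mul_apply, Fin.sum_univ_two,
    h1, g3]
  rw [add_comm]

theorem mkD_one (D : ι → FGC (sg p)) (hD : ∀ i, D i ∈ Par p (p i + 1)) :
    mkD D hD 1 = 0 := by
  simp [mkD]

end parity

end Pool.H582SA
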