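import Pool.Agent.H582SA.Alg

/-!
The commutative algebra `ℚ[t][x,s,y,r]/(x²,s²,sy,y²,yr,r²)` and its odd derivation
(MP_3de1ca_gt, helper582).  Coordinates: `a0,a1,a2,a3` for `1,x,s,xs`; `b0,b1` for `y,xy`;
`c0,c1,c2,c3` for `r,xr,sr,xsr`.
-/

namespace Pool.H582SA

open Polynomial

/-- the target algebra, by coordinates over `ℚ[X]` -/
@[ext] structure C where
  a0 : ℚ[X]
  a1 : ℚ[X]
  a2 : ℚ[X]
  a3 : ℚ[X]
  b0 : ℚ[X]
  b1 : ℚ[X]
  c0 : ℚ[X]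
  c1 : ℚ[X]
  c2 : ℚ[X]
  c3 : ℚ[X]

namespace C

noncomputable instance : Zero C := ⟨⟨0, 0, 0, 0, 0, 0, 0, 0, 0, 0⟩⟩
noncomputable instance : One C := ⟨⟨1, 0, 0, 0, 0, 0, 0, 0, 0, 0⟩⟩
noncomputable instance : Add C := ⟨fun u v => ⟨u.a0 + v.a0,
  u.a1 + v.a1,
  u.a2 + v.a2,
  u.a3 + v.a3,
  u.b0 + v.b0,
  u.b1 + v.b1,
  u.c0 + v.c0,
  u.c1 + v.c1,
  u.c2 + v.c2,
  u.c3 + v.c3⟩⟩
noncomputable instance : Neg C := ⟨fun u => ⟨-u.a0, -u.a1, -u.a2, -u.a3, -u.b0, -u.b1, -u.c0, -u.c1, -u.c2, -u.c3⟩⟩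
noncomputable instance : Mul C := ⟨fun u v => ⟨u.a0 * v.a0,
  u.a0 * v.a1 + u.a1 * v.a0,
  u.a0 * v.a2 + u.a2 * v.a0,
  u.a0 * v.a3 + u.a1 * v.a2 + u.a2 * v.a1 + u.a3 * v.a0,
  u.a0 * v.b0 + u.b0 * v.a0,
  u.a0 * v.b1 + u.a1 * v.b0 + u.b0 * v.a1 + u.b1 * v.a0,
  u.a0 * v.c0 + u.c0 * v.a0,
  u.a0 * v.c1 + u.a1 * v.c0 + u.c0 * v.a1 + u.c1 * v.a0,
  u.a0 * v.c2 + u.a2 * v.c0 + u.c0 * v.a2 + u.c2 * v.a0,
  u.a0 * v.c3 + u.a1 * v.c2 + u.a2 * v.c1 + u.a3 * v.c0 + u.c0 * v.a3 + u.c1 * v.a2 + u.c2 * v.a1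
    + u.c3 * v.a0⟩⟩
@[simp] theorem zero_a0 : (0 : C).a0 = 0 := rfl
@[simp] theorem one_a0 : (1 : C).a0 = 1 := rfl
@[simp] theorem add_a0 (u v : C) : (u + v).a0 = u.a0 + v.a0 := rfl
@[simp] theorem neg_a0 (u : C) : (-u).a0 = -u.a0 := rfl
@[simp] theorem mul_a0 (u v : C) : (u * v).a0 =
    u.a0 * v.a0 := rfl
@[simp] theorem zero_a1 : (0 : C).a1 = 0 := rfl
@[simp] theorem one_a1 : (1 : C).a1 = 0 := rfl
@[simp] theorem add_a1 (u v : C) : (u + v).a1 = u.a1 + v.a1 := rfl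
@[simp] theorem neg_a1 (u : C) : (-u).a1 = -u.a1 := rfl
@[simp] theorem mul_a1 (u v : C) : (u * v).a1 =
    u.a0 * v.a1 + u.a1 * v.a0 := rfl
@[simp] theorem zero_a2 : (0 : C).a2 = 0 := rfl
@[simp] theorem one_a2 : (1 : C).a2 = 0 := rfl
@[simp] theorem add_a2 (u v : C) : (u + v).a2 = u.a2 + v.a2 := rfl
@[simp] theorem neg_a2 (u : C) : (-u).a2 = -u.a2 := rfl
@[simp] theorem mul_a2 (u v : C) : (u * v).a2 =
    u.a0 * v.a2 + u.a2 * v.a0 := rfl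
@[simp] theorem zero_a3 : (0 : C).a3 = 0 := rfl
@[simp] theorem one_a3 : (1 : C).a3 = 0 := rfl
@[simp] theorem add_a3 (u v : C) : (u + v).a3 = u.a3 + v.a3 := rfl
@[simp] theorem neg_a3 (u : C) : (-u).a3 = -u.a3 := rfl
@[simp] theorem mul_a3 (u v : C) : (u * v).a3 =
    u.a0 * v.a3 + u.a1 * v.a2 + u.a2 * v.a1 + u.a3 * v.a0 := rfl
@[simp] theorem zero_b0 : (0 : C).b0 = 0 := rfl
@[simp] theorem one_b0 : (1 : C).b0 = 0 := rfl
@[simp] theorem add_b0 (u v : C) : (u + v).b0 = u.b0 + v.b0 := rfl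
@[simp] theorem neg_b0 (u : C) : (-u).b0 = -u.b0 := rfl
@[simp] theorem mul_b0 (u v : C) : (u * v).b0 =
    u.a0 * v.b0 + u.b0 * v.a0 := rfl
@[simp] theorem zero_b1 : (0 : C).b1 = 0 := rfl
@[simp] theorem one_b1 : (1 : C).b1 = 0 := rfl
@[simp] theorem add_b1 (u v : C) : (u + v).b1 = u.b1 + v.b1 := rfl
@[simp] theorem neg_b1 (u : C) : (-u).b1 = -u.b1 := rfl
@[simp] theorem mul_b1 (u v : C) : (u * v).b1 =
    u.a0 * v.b1 + u.a1 * v.b0 + u.b0 * v.a1 + u.b1 * v.a0 := rfl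
@[simp] theorem zero_c0 : (0 : C).c0 = 0 := rfl
@[simp] theorem one_c0 : (1 : C).c0 = 0 := rfl
@[simp] theorem add_c0 (u v : C) : (u + v).c0 = u.c0 + v.c0 := rfl
@[simp] theorem neg_c0 (u : C) : (-u).c0 = -u.c0 := rfl
@[simp] theorem mul_c0 (u v : C) : (u * v).c0 =
    u.a0 * v.c0 + u.c0 * v.a0 := rfl
@[simp] theorem zero_c1 : (0 : C).c1 = 0 := rfl
@[simp] theorem one_c1 : (1 : C).c1 = 0 := rfl
@[simp] theorem add_c1 (u v : C) : (u + v).c1 = u.c1 + v.c1 := rfl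
@[simp] theorem neg_c1 (u : C) : (-u).c1 = -u.c1 := rfl
@[simp] theorem mul_c1 (u v : C) : (u * v).c1 =
    u.a0 * v.c1 + u.a1 * v.c0 + u.c0 * v.a1 + u.c1 * v.a0 := rfl
@[simp] theorem zero_c2 : (0 : C).c2 = 0 := rfl
@[simp] theorem one_c2 : (1 : C).c2 = 0 := rfl
@[simp] theorem add_c2 (u v : C) : (u + v).c2 = u.c2 + v.c2 := rfl
@[simp] theorem neg_c2 (u : C) : (-u).c2 = -u.c2 := rfl
@[simp] theorem mul_c2 (u v : C) : (u * v).c2 =
    u.a0 * v.c2 + u.a2 * v.c0 + u.c0 * v.a2 + u.c2 * v.a0 := rfl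
@[simp] theorem zero_c3 : (0 : C).c3 = 0 := rfl
@[simp] theorem one_c3 : (1 : C).c3 = 0 := rfl
@[simp] theorem add_c3 (u v : C) : (u + v).c3 = u.c3 + v.c3 := rfl
@[simp] theorem neg_c3 (u : C) : (-u).c3 = -u.c3 := rfl
@[simp] theorem mul_c3 (u v : C) : (u * v).c3 =
    u.a0 * v.c3 + u.a1 * v.c2 + u.a2 * v.c1 + u.a3 * v.c0 + u.c0 * v.a3 + u.c1 * v.a2 + u.c2 * v.a1
    + u.c3 * v.a0 := rfl

noncomputable instance : CommRing C where
  add_assoc := by intro u v w; ext1 <;> simp [add_assoc]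
  zero_add := by intro u; ext1 <;> simp
  add_zero := by intro u; ext1 <;> simp
  add_comm := by intro u v; ext1 <;> simp [add_comm]
  left_distrib := by intro u v w; ext1 <;> simp <;> ring
  right_distrib := by intro u v w; ext1 <;> simp <;> ring
  zero_mul := by intro u; ext1 <;> simp
  mul_zero := by intro u; ext1 <;> simp
  mul_assoc := by intro u v w; ext1 <;> simp <;> ring
  one_mul := by intro u; ext1 <;> simp
  mul_one := by intro u; ext1 <;> simp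
  neg_add_cancel := by intro u; ext1 <;> simp
  mul_comm := by intro u v; ext1 <;> simp <;> ring
  nsmul := nsmulRec
  zsmul := zsmulRec

/-- the structure map -/
noncomputable def ofQ : ℚ →+* C where
  toFun q := ⟨Polynomial.C q, 0, 0, 0, 0, 0, 0, 0, 0, 0⟩
  map_one' := by ext1 <;> simp
  map_zero' := by ext1 <;> simp
  map_mul' := by intro a b; ext1 <;> simp
  map_add' := by intro a b; ext1 <;> simp

noncomputable instance : Algebra ℚ C := ofQ.toAlgebra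

@[simp] theorem smul_a0 (q : ℚ) (u : C) : (q • u).a0 = Polynomial.C q * u.a0 := by
  change (ofQ q * u).a0 = _
  simp [ofQ]
@[simp] theorem smul_a1 (q : ℚ) (u : C) : (q • u).a1 = Polynomial.C q * u.a1 := by
  change (ofQ q * u).a1 = _
  simp [ofQ]
@[simp] theorem smul_a2 (q : ℚ) (u : C) : (q • u).a2 = Polynomial.C q * u.a2 := by
  change (ofQ q * u).a2 = _
  simp [ofQ]
@[simp] theorem smul_a3 (q : ℚ) (u : C) : (q • u).a3 = Polynomial.C q * u.a3 := by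
  change (ofQ q * u).a3 = _
  simp [ofQ]
@[simp] theorem smul_b0 (q : ℚ) (u : C) : (q • u).b0 = Polynomial.C q * u.b0 := by
  change (ofQ q * u).b0 = _
  simp [ofQ]
@[simp] theorem smul_b1 (q : ℚ) (u : C) : (q • u).b1 = Polynomial.C q * u.b1 := by
  change (ofQ q * u).b1 = _
  simp [ofQ]
@[simp] theorem smul_c0 (q : ℚ) (u : C) : (q • u).c0 = Polynomial.C q * u.c0 := by
  change (ofQ q * u).c0 = _
  simp [ofQ]
@[simp] theorem smul_c1 (q : ℚ) (u : C) : (q • u).c1 = Polynomial.C q * u.c1 := by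
  change (ofQ q * u).c1 = _
  simp [ofQ]
@[simp] theorem smul_c2 (q : ℚ) (u : C) : (q • u).c2 = Polynomial.C q * u.c2 := by
  change (ofQ q * u).c2 = _
  simp [ofQ]
@[simp] theorem smul_c3 (q : ℚ) (u : C) : (q • u).c3 = Polynomial.C q * u.c3 := by
  change (ofQ q * u).c3 = _
  simp [ofQ]

/-- the odd derivation `x,y ↦ 0, s ↦ xy, r ↦ xs, t ↦ -rs` -/
noncomputable def dl : C →ₗ[ℚ] C where
  toFun u := ⟨0, 0, 0, u.c0, 0, u.a2, 0, 0, -derivative u.a0, -derivative u.a1⟩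
  map_add' := by intro u v; ext1 <;> simp <;> ring
  map_smul' := by intro q u; ext1 <;> simp

@[simp] theorem dl_a0 (u : C) : (dl u).a0 = 0 := rfl
@[simp] theorem dl_a1 (u : C) : (dl u).a1 = 0 := rfl
@[simp] theorem dl_a2 (u : C) : (dl u).a2 = 0 := rfl
@[simp] theorem dl_a3 (u : C) : (dl u).a3 = u.c0 := rfl
@[simp] theorem dl_b0 (u : C) : (dl u).b0 = 0 := rfl
@[simp] theorem dl_b1 (u : C) : (dl u).b1 = u.a2 := rfl
@[simp] theorem dl_c0 (u : C) : (dl u).c0 = 0 := rfl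
@[simp] theorem dl_c1 (u : C) : (dl u).c1 = 0 := rfl
@[simp] theorem dl_c2 (u : C) : (dl u).c2 = -derivative u.a0 := rfl
@[simp] theorem dl_c3 (u : C) : (dl u).c3 = -derivative u.a1 := rfl

/-- the sign automorphism -/
noncomputable def tc : C →ₗ[ℚ] C where
  toFun u := ⟨u.a0, u.a1, u.a2, u.a3, -u.b0, -u.b1, -u.c0, -u.c1, -u.c2, -u.c3⟩
  map_add' := by intro u v; ext1 <;> simp <;> ring
  map_smul' := by intro q u; ext1 <;> simp

@[simp] theorem tc_a0 (u : C) : (tc u).a0 = u.a0 := rfl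
@[simp] theorem tc_a1 (u : C) : (tc u).a1 = u.a1 := rfl
@[simp] theorem tc_a2 (u : C) : (tc u).a2 = u.a2 := rfl
@[simp] theorem tc_a3 (u : C) : (tc u).a3 = u.a3 := rfl
@[simp] theorem tc_b0 (u : C) : (tc u).b0 = -u.b0 := rfl
@[simp] theorem tc_b1 (u : C) : (tc u).b1 = -u.b1 := rfl
@[simp] theorem tc_c0 (u : C) : (tc u).c0 = -u.c0 := rfl
@[simp] theorem tc_c1 (u : C) : (tc u).c1 = -u.c1 := rfl
@[simp] theorem tc_c2 (u : C) : (tc u).c2 = -u.c2 := rfl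
@[simp] theorem tc_c3 (u : C) : (tc u).c3 = -u.c3 := rfl

theorem tc_mul (u v : C) : tc (u * v) = tc u * tc v := by
  ext1 <;> simp <;> ring

theorem tc_one : tc 1 = 1 := by
  ext1 <;> simp

theorem dl_mul (u v : C) : dl (u * v) = dl u * v + tc u * dl v := by
  ext1 <;> simp <;> ring

theorem dl_one : dl 1 = 0 := by
  ext1 <;> simp

/-- the element `x` -/
noncomputable def ex : C := ⟨0, 1, 0, 0, 0, 0, 0, 0, 0, 0⟩
/-- the element `s` -/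
noncomputable def es : C := ⟨0, 0, 1, 0, 0, 0, 0, 0, 0, 0⟩
/-- the element `y` -/
noncomputable def ey : C := ⟨0, 0, 0, 0, 1, 0, 0, 0, 0, 0⟩
/-- the element `r` -/
noncomputable def er : C := ⟨0, 0, 0, 0, 0, 0, 1, 0, 0, 0⟩
/-- the element `t` -/
noncomputable def et : C := ⟨X, 0, 0, 0, 0, 0, 0, 0, 0, 0⟩
/-- the element `g(t) r` -/
noncomputable def gr (g : ℚ[X]) : C := ⟨0, 0, 0, 0, 0, 0, g, 0, 0, 0⟩

end C

end Pool.H582SA
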