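import Pool.Agent.H582SA.Rec

/-!
Properties of the Sullivan algebra (MP_3de1ca_gt, helper582).
-/

namespace Pool.H582SA

open Polynomial

/-- the final degrees -/
noncomputable def dgr : G → ℕ := deg fd

theorem fd_odd (m : ℕ) : Odd (fd m) := (main m).1
theorem fd_ge (m : ℕ) : 9 ≤ fd m := (main m).2.1

theorem dgr_ge (i : G) : 2 ≤ dgr i := by
  cases i with
  | w m => have := fd_ge m; simp only [dgr, deg]; omega
  | _ => simp [dgr, deg]

theorem dgr_par (i : G) : dgr i % 2 = par i % 2 := by
  cases i with
  | w m => have := fd_odd m; simp only [dgr, deg, par]; rw [Nat.odd_iff] at this; omega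
  | _ => simp [dgr, deg, par]

theorem sum_par (L : List G) : (L.map dgr).sum % 2 = (L.map par).sum % 2 := by
  induction L with
  | nil => rfl
  | cons i L ih =>
    simp only [List.map_cons, List.sum_cons]
    have := dgr_par i
    omega

/-- homogeneous elements -/
noncomputable abbrev Hom (n : ℕ) : Submodule ℚ E := homog (sg par) dgr n

theorem Hom_par {n : ℕ} {a : E} (ha : a ∈ Hom n) : a ∈ Par par n := by
  refine spanOf_mono ?_ ha
  intro L hL
  have hL' : (L.map dgr).sum = n := hL
  change (L.map par).sum % 2 = n % 2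
  rw [← sum_par, hL']

theorem Lo_Hom {m n : ℕ} {a : E} (ha : a ∈ Lo fd m n) : a ∈ Hom n :=
  spanOf_mono (fun _ h => h.2) ha

theorem gg_Hom {i j : G} {n : ℕ} (h : dgr i + dgr j = n) : g i * g j ∈ Hom n := by
  have : g i * g j = mono (sg par) [i, j] := by simp [g]
  rw [this]
  exact mono_mem (by simpa using h)

/-- decomposable elements -/
noncomputable def Dec : Submodule ℚ E := spanOf (sg par) (fun L => 2 ≤ L.length)

theorem gg_Dec {i j : G} : g i * g j ∈ Dec := by
  have : g i * g j = mono (sg par) [i, j] := by simp [g]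
  rw [this]
  exact mono_mem (by simp)

/-- the final differential -/
noncomputable def D : E →ₗ[ℚ] E := DD fc

theorem D_g (i : G) : D (g i) = Dg fc i := mkD_gen _ _ i

theorem D_mul (a b : E) : D (a * b) = D a * b + tau par a * D b := mkD_mul _ _ a b

theorem D_one : D 1 = 0 := mkD_one _ _

theorem Dg_Hom (i : G) : Dg fc i ∈ Hom (dgr i + 1) := by
  cases i with
  | x => exact zero_mem _
  | y => exact zero_mem _
  | z => exact gg_Hom rfl
  | s => exact gg_Hom rfl
  | s2 => exact gg_Hom rfl
  | r => exact sub_mem (gg_Hom rfl) (gg_Hom rfl)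
  | h => exact sub_mem (gg_Hom rfl) (Submodule.smul_mem _ _ (gg_Hom rfl))
  | r2 => exact sub_mem (gg_Hom rfl) (gg_Hom rfl)
  | v => exact add_mem (sub_mem (sub_mem (gg_Hom rfl) (gg_Hom rfl)) (gg_Hom rfl)) (gg_Hom rfl)
  | w m => exact Lo_Hom (main m).2.2.1

theorem len2 {L : List G} {n : ℕ} (hn : Even n) (h10 : 10 ≤ n) (hL : (L.map dgr).sum = n) :
    2 ≤ L.length := by
  match L, hL with
  | [], hL => simp at hL; omega
  | [i], hL =>
    exfalso
    simp only [List.map_cons, List.map_nil, List.sum_cons, List.sum_nil, add_zero] at hL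
    cases i with
    | w m =>
      have := fd_odd m
      have h : dgr (.w m) = fd m := rfl
      rw [h] at hL
      rw [hL] at this
      rw [Nat.odd_iff] at this
      rw [Nat.even_iff] at hn
      omega
    | _ => simp only [dgr, deg] at hL; omega
  | i :: j :: L, _ => simp

theorem Dg_Dec (i : G) : Dg fc i ∈ Dec := by
  cases i with
  | x => exact zero_mem _
  | y => exact zero_mem _
  | z => exact gg_Dec
  | s => exact gg_Dec
  | s2 => exact gg_Dec
  | r => exact sub_mem gg_Dec gg_Dec
  | h => exact sub_mem gg_Dec (Submodule.smul_mem _ _ gg_Dec)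
  | r2 => exact sub_mem gg_Dec gg_Dec
  | v => exact add_mem (sub_mem (sub_mem gg_Dec gg_Dec) gg_Dec) gg_Dec
  | w m =>
    refine spanOf_mono ?_ (Lo_Hom (main m).2.2.1)
    intro L hL
    have h1 := fd_odd m
    have h2 := fd_ge m
    exact len2 (n := fd m + 1) h1.add_one (by omega) hL

theorem D_mono_Hom (L : List G) : D (mono (sg par) L) ∈ Hom ((L.map dgr).sum + 1) := by
  induction L with
  | nil => rw [mono_nil, D_one]; exact zero_mem _
  | cons i L ih =>
    rw [mono_cons, D_mul]
    refine add_mem ?_ ?_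
    · refine spanOf_mul (S := fun M => (M.map dgr).sum = dgr i + 1)
        (T := fun M => (M.map dgr).sum = (L.map dgr).sum) ?_ ?_ ?_
      · intro M N h1 h2
        simp only [List.map_append, List.sum_append, h1, h2, List.map_cons, List.sum_cons]
        ring
      · exact (D_g i) ▸ Dg_Hom i
      · exact mono_mem rfl
    · refine spanOf_mul (S := fun M => (M.map dgr).sum = dgr i)
        (T := fun M => (M.map dgr).sum = (L.map dgr).sum + 1) ?_ ?_ ?_
      · intro M N h1 h2
        simp only [List.map_append, List.sum_append, h1, h2, List.map_cons, List.sum_cons]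
        ring
      · rw [tau_gen, ← mono_single]
        exact Submodule.smul_mem _ _ (mono_mem (by simp))
      · exact ih

theorem D_Hom {n : ℕ} {a : E} (ha : a ∈ Hom n) : D a ∈ Hom (n + 1) := by
  refine spanOf_induct (P := fun a => D a ∈ Hom (n + 1)) ?_ ?_ ?_ ?_ ha
  · intro L hL
    have := D_mono_Hom L
    rwa [hL] at this
  · simp
  · intro a b h1 h2; rw [map_add]; exact add_mem h1 h2
  · intro r a h1; rw [map_smul]; exact Submodule.smul_mem _ _ h1

theorem D_leib {n : ℕ} {a : E} (ha : a ∈ Hom n) (b : E) :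
    D (a * b) = D a * b + ((-1 : ℚ) ^ n) • (a * D b) := by
  rw [D_mul, tau_par (Hom_par ha), smul_mul_assoc]

theorem D_gg (i j : G) : D (g i * g j)
    = Dg fc i * g j + ((-1 : ℚ) ^ (par i)) • (g i * Dg fc j) := by
  have h : tau par (g i) = ((-1 : ℚ) ^ (par i)) • g i := tau_gen i
  rw [D_mul, D_g, D_g, h, smul_mul_assoc]

theorem g_comm (i j : G) : g i * g j = sg par i j • (g j * g i) := gen_comm i j

theorem neg_one (t : E) : (-1 : ℚ) • t = -t := by
  have h := neg_smul (1 : ℚ) t
  exact h.trans (congrArg _ (one_smul ℚ t))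

theorem D_Dg (i : G) : D (Dg fc i) = 0 := by
  have hyy : g .y * g .y = 0 := by
    have h := g_comm .y .y
    have hs : sg par .y .y = -1 := by simp [sg, par]
    rw [hs, neg_one] at h
    have h2 : (2 : ℚ) • (g .y * g .y) = 0 := by
      rw [two_smul]
      nth_rewrite 1 [h]
      exact neg_add_cancel _
    exact (smul_eq_zero.mp h2).resolve_left two_ne_zero
  have hys : g .y * g .s = g .s * g .y := by
    have := g_comm .y .s
    simpa [sg, par] using this
  have hsx : g .s * g .x = g .x * g .s := by
    have := g_comm .s .x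
    simpa [sg, par] using this
  have hrx : g .r * g .x = g .x * g .r := by
    have := g_comm .r .x
    simpa [sg, par] using this
  have hsx' : ∀ t, g .s * (g .x * t) = g .x * (g .s * t) := by
    intro t; rw [← mul_assoc, hsx, mul_assoc]
  have hrx' : ∀ t, g .r * (g .x * t) = g .x * (g .r * t) := by
    intro t; rw [← mul_assoc, hrx, mul_assoc]
  cases i with
  | x => exact map_zero _
  | y => exact map_zero _
  | z => simp only [Dg, D_gg]; simp
  | s => simp only [Dg, D_gg]; simp
  | s2 =>
    simp only [Dg, D_gg, mul_assoc, hyy]; simp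
  | r =>
    simp only [Dg, D_gg, map_sub, par]; simp [mul_assoc]
  | h =>
    simp only [Dg, D_gg, map_sub, map_add, map_smul, par, mul_assoc, sub_mul, hyy, hys, hsx',
      mul_zero, pow_zero, one_smul, sub_zero, smul_zero, add_zero, two_smul]
    abel
  | r2 =>
    simp only [Dg, D_gg, map_sub, map_smul, par, mul_assoc, sub_mul, hyy, hys, hsx', mul_zero,
      pow_zero, one_smul, sub_zero, smul_zero, add_zero, two_smul, zero_mul, zero_add]
    abel
  | v =>
    simp only [Dg, D_gg, map_sub, map_add, map_smul, par, mul_assoc, sub_mul, mul_sub, hyy, hys,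
      hsx', hrx', mul_zero, pow_one, neg_one,
      pow_zero, one_smul, sub_zero, smul_zero, add_zero, two_smul, zero_mul, zero_add, mul_add]
    abel
  | w m => exact (main m).2.2.2.1

theorem D_D (a : E) : D (D a) = 0 := by
  refine mono_induct (P := fun a => D (D a) = 0) ?_ ?_ ?_ ?_ a
  · intro L
    induction L with
    | nil => rw [mono_nil, D_one, map_zero]
    | cons i L ih =>
      have h1 : D (gen (sg par) i) = Dg fc i := D_g i
      rw [mono_cons, D_mul, map_add, D_mul, h1, D_Dg, zero_mul, zero_add,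
        tau_par (Dg_mem fc i), tau_gen, smul_mul_assoc, smul_mul_assoc, map_smul, D_mul, ih,
        mul_zero, add_zero, h1, ← add_smul, pow_succ]
      simp
  · simp
  · intro a b h1 h2; rw [map_add, map_add, h1, h2, add_zero]
  · intro r a h1; rw [map_smul, map_smul, h1, smul_zero]

/-! ### the map to `C` -/

theorem tc_rg (i : G) : C.tc (rg fe i) = ((-1 : ℚ) ^ (par i)) • rg fe i := by
  cases i <;> ext1 <;> simp [rg, par, C.ex, C.es, C.ey, C.er, C.et, C.gr]

theorem tc_mono (L : List G) : C.tc (rho fe (mono (sg par) L))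
    = ((-1 : ℚ) ^ ((L.map par).sum)) • rho fe (mono (sg par) L) := by
  induction L with
  | nil => simp [C.tc_one]
  | cons i L ih =>
    rw [mono_cons, map_mul, C.tc_mul, ih, show gen (sg par) i = g i from rfl, rho_g, tc_rg,
      smul_mul_smul_comm]
    congr 1
    simp [pow_add]

theorem rho_D_mono (L : List G) (h : ∀ i ∈ L, rho fe (Dg fc i) = C.dl (rg fe i)) :
    rho fe (D (mono (sg par) L)) = C.dl (rho fe (mono (sg par) L)) := by
  induction L with
  | nil => rw [mono_nil, D_one, map_one, C.dl_one, map_zero]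
  | cons i L ih =>
    have h1 : D (gen (sg par) i) = Dg fc i := D_g i
    have h2 : rho fe (gen (sg par) i) = rg fe i := rho_g fe i
    rw [mono_cons, D_mul, map_add, map_mul, map_mul, map_mul, C.dl_mul, h1, h2,
      h i (by simp), ih (fun j hj => h j (by simp [hj])), tau_gen, map_smul, h2, tc_rg]

theorem coeff_a0 (i : G) : (rg fe i).a0.coeff 0 = 0 := by
  cases i <;> simp [rg, C.ex, C.es, C.ey, C.er, C.et, C.gr]

theorem mono_a0 {L : List G} (hL : 1 ≤ L.length) :
    (rho fe (mono (sg par) L)).a0.coeff 0 = 0 := by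
  cases L with
  | nil => simp at hL
  | cons i L =>
    rw [mono_cons, map_mul, show gen (sg par) i = g i from rfl, rho_g, C.mul_a0, mul_coeff_zero,
      coeff_a0, zero_mul]

theorem mono_a1 {L : List G} (hL : 2 ≤ L.length) :
    (rho fe (mono (sg par) L)).a1.coeff 0 = 0 := by
  cases L with
  | nil => simp at hL
  | cons i L =>
    have h1 : 1 ≤ L.length := by simp at hL; omega
    rw [mono_cons, map_mul, show gen (sg par) i = g i from rfl, rho_g, C.mul_a1, coeff_add,
      mul_coeff_zero, mul_coeff_zero, coeff_a0, zero_mul, mono_a0 h1, mul_zero, add_zero]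

theorem const_zero {f : ℚ[X]} (h : derivative f = 0) (h0 : f.coeff 0 = 0) : f = 0 := by
  rw [eq_C_of_natDegree_eq_zero (natDegree_eq_zero_of_derivative_eq_zero h), h0, map_zero]

theorem neg_self {f : ℚ[X]} (h : -f = f) : f = 0 := by
  have : (2 : ℚ[X]) * f = 0 := by linear_combination (-1 : ℚ[X]) * h
  simpa using this

theorem rho_fc (m : ℕ) : rho fe (fc m) = C.dl (rg fe (.w m)) := by
  induction m using Nat.strong_induction_on with
  | _ m ih =>
    obtain ⟨h1, h2, h3, h4, h5, -⟩ := main m
    -- base generators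
    have hb : ∀ i, Al m i → rho fe (Dg fc i) = C.dl (rg fe i) := by
      intro i hi
      cases i with
      | w k => exact ih k hi
      | _ =>
        simp only [Dg, map_sub, map_add, map_mul, map_smul, rho_g, map_zero, rg]
        ext1 <;> simp [C.ex, C.es, C.ey, C.er, C.et, sub_eq_add_neg]
    have hD : rho fe (D (fc m)) = C.dl (rho fe (fc m)) := by
      refine spanOf_induct (P := fun a => rho fe (D a) = C.dl (rho fe a)) ?_ ?_ ?_ ?_ h3
      · rintro L ⟨hL, _⟩
        exact rho_D_mono L (fun i hi => hb i (hL i hi))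
      · simp
      · intro a b h1 h2; simp only [map_add, h1, h2]
      · intro r a h1; simp only [map_smul, h1]
    have hD0 : D (fc m : E) = 0 := h4
    rw [hD0, map_zero] at hD
    have ht : C.tc (rho fe (fc m)) = rho fe (fc m) := by
      refine spanOf_induct (P := fun a => C.tc (rho fe a) = rho fe a) ?_ ?_ ?_ ?_ (fc m).2
      · intro L hL
        rw [tc_mono, neg_one_pow_mod hL]; simp
      · simp
      · intro a b h1 h2; simp only [map_add, h1, h2]
      · intro r a h1; simp only [map_smul, h1]
    have hc : (rho fe (fc m)).a0.coeff 0 = 0 ∧ (rho fe (fc m)).a1.coeff 0 = 0 := by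
      refine spanOf_induct (P := fun a => (rho fe a).a0.coeff 0 = 0 ∧ (rho fe a).a1.coeff 0 = 0)
        ?_ ?_ ?_ ?_ (Lo_Hom h3)
      · intro L hL
        have hl := len2 (n := fd m + 1) h1.add_one (by omega) hL
        exact ⟨mono_a0 (by omega), mono_a1 hl⟩
      · simp
      · rintro a b ⟨h1, h2⟩ ⟨h3, h4⟩
        simp [h1, h2, h3, h4]
      · rintro r a ⟨h1, h2⟩
        simp [h1, h2]
    have e0 := congrArg C.c2 hD
    have e1 := congrArg C.c3 hD
    have e2 := congrArg C.b1 hD
    simp only [C.zero_c2, C.zero_c3, C.zero_b1, C.dl_c2, C.dl_c3, C.dl_b1] at e0 e1 e2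
    have k0 : (rho fe (fc m)).a0 = 0 := const_zero (by simpa using e0.symm) hc.1
    have k1 : (rho fe (fc m)).a1 = 0 := const_zero (by simpa using e1.symm) hc.2
    have b0 := neg_self (congrArg C.b0 ht)
    have b1 := neg_self (congrArg C.b1 ht)
    have c0 := neg_self (congrArg C.c0 ht)
    have c1 := neg_self (congrArg C.c1 ht)
    have c2 := neg_self (congrArg C.c2 ht)
    have c3 := neg_self (congrArg C.c3 ht)
    ext1
    · rw [k0]; simp
    · rw [k1]; simp
    · rw [← e2]; simp
    · rw [C.dl_a3, ← h5]; simp [rg, C.gr]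
    · rw [b0]; simp
    · rw [b1]; simp [rg, C.gr]
    · rw [c0]; simp
    · rw [c1]; simp
    · rw [c2]; simp [rg, C.gr]
    · rw [c3]; simp [rg, C.gr]

theorem rho_Dg (i : G) : rho fe (Dg fc i) = C.dl (rg fe i) := by
  cases i with
  | w k => exact rho_fc k
  | _ =>
    simp only [Dg, map_sub, map_add, map_mul, map_smul, rho_g, map_zero, rg]
    ext1 <;> simp [C.ex, C.es, C.ey, C.er, C.et, sub_eq_add_neg]

theorem rho_D (a : E) : rho fe (D a) = C.dl (rho fe a) := by
  refine mono_induct (P := fun a => rho fe (D a) = C.dl (rho fe a)) ?_ ?_ ?_ ?_ a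
  · intro L
    exact rho_D_mono L (fun i _ => rho_Dg i)
  · simp
  · intro a b h1 h2; simp only [map_add, h1, h2]
  · intro r a h1; simp only [map_smul, h1]

/-- the ideal generated by the generators of degree `< n` -/
noncomputable def Low (n : ℕ) : Submodule ℚ E :=
  Submodule.span ℚ {c | ∃ (a : E) (j : G) (b : E), dgr j < n ∧ c = a * g j * b}

theorem rg_low {i : G} (h : dgr i < 8) : (rg fe i).a0 = 0 := by
  cases i with
  | v => simp [dgr, deg] at h
  | w m => simp [rg, C.gr]
  | _ => simp [rg, C.ex, C.es, C.ey, C.er]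

theorem not_nil (m : ℕ) (η : E) : g .v ^ m - D η ∉ Low 8 := by
  intro h
  have key : ∀ c ∈ Low 8, (rho fe c).a0 = 0 := by
    intro c hc
    unfold Low at hc
    induction hc using Submodule.span_induction with
    | mem x hx =>
      obtain ⟨a, j, b, hj, rfl⟩ := hx
      rw [map_mul, map_mul, C.mul_a0, C.mul_a0, rho_g, rg_low hj]
      simp
    | zero => simp
    | add x y _ _ hx hy => simp [hx, hy]
    | smul r x _ hx => simp [hx]
  have h1 := key _ h
  have hv : ∀ m : ℕ, (rho fe (g .v ^ m)).a0 = X ^ m := by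
    intro m
    induction m with
    | zero => simp
    | succ m ih => rw [pow_succ, map_mul, C.mul_a0, ih, rho_g]; simp [rg, C.et, pow_succ]
  rw [sub_eq_add_neg, map_add, C.add_a0, map_neg, C.neg_a0, rho_D, C.dl_a0, hv] at h1
  simp at h1

end Pool.H582SA
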