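import Pool.Agent.H582SA.Fin

/-!
Finiteness properties of the Sullivan algebra (MP_3de1ca_gt, helper582).
-/

namespace Pool.H582SA

open Polynomial

theorem span_fc_le : Submodule.span ℚ (Set.range fun k => (fc k : E)) ≤ LinearMap.range D := by
  rw [Submodule.span_le]
  rintro _ ⟨k, rfl⟩
  exact ⟨g (.w k), D_g _⟩

theorem Al_mono {N M : ℕ} (h : N ≤ M) {i : G} (hi : Al N i) : Al M i := by
  cases i with
  | w k => simp only [Al] at hi ⊢; omega
  | _ => trivial

theorem exists_Al (i : G) : ∃ N, Al N i := by
  cases i with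
  | w k => exact ⟨k + 1, by simp [Al]⟩
  | _ => exact ⟨0, trivial⟩

theorem exists_bound (L : List G) : ∃ N, ∀ i ∈ L, Al N i := by
  induction L with
  | nil => exact ⟨0, by simp⟩
  | cons i L ih =>
    obtain ⟨N, hN⟩ := ih
    obtain ⟨M, hM⟩ := exists_Al i
    refine ⟨max N M, fun j hj => ?_⟩
    rcases List.mem_cons.1 hj with rfl | hj
    · exact Al_mono (le_max_right _ _) hM
    · exact Al_mono (le_max_left _ _) (hN j hj)

theorem Lo_mono {N M n : ℕ} (h : N ≤ M) : Lo fd N n ≤ Lo fd M n :=
  spanOf_mono (fun _ hL => ⟨fun i hi => Al_mono h (hL.1 i hi), hL.2⟩)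

theorem Hom_Lo {n : ℕ} {a : E} (ha : a ∈ Hom n) : ∃ N, a ∈ Lo fd N n := by
  refine spanOf_induct (P := fun a => ∃ N, a ∈ Lo fd N n) ?_ ?_ ?_ ?_ ha
  · intro L hL
    obtain ⟨N, hN⟩ := exists_bound L
    exact ⟨N, mono_mem ⟨hN, hL⟩⟩
  · exact ⟨0, zero_mem _⟩
  · rintro a b ⟨N, hN⟩ ⟨M, hM⟩
    exact ⟨max N M, add_mem (Lo_mono (le_max_left _ _) hN) (Lo_mono (le_max_right _ _) hM)⟩
  · rintro r a ⟨N, hN⟩
    exact ⟨N, Submodule.smul_mem _ _ hN⟩

theorem exact_high {n : ℕ} (hn : Even n) (h10 : 10 ≤ n) {a : E} (ha : a ∈ Hom n)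
    (hD : D a = 0) : a ∈ LinearMap.range D := by
  obtain ⟨N, hN⟩ := Hom_Lo ha
  obtain ⟨d, rfl⟩ : ∃ d, n = d + 1 := ⟨n - 1, by omega⟩
  apply span_fc_le
  have hd : Odd d := by
    rw [Nat.even_iff] at hn
    rw [Nat.odd_iff]
    omega
  have hp : a ∈ Par par 0 := by
    have h1 := Hom_par ha
    have h2 : Par par (d + 1) = Par par 0 := by
      unfold Par
      rw [Nat.even_iff.1 hn]
    rwa [h2] at h1
  exact accept (d := d) hd (by omega) hp hN hD

/-- the degree homomorphism -/
noncomputable def Gam : E →ₐ[ℚ] Polynomial E := lift (fun i => monomial (dgr i) (g i)) (by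
  intro i j
  rw [monomial_mul_monomial, monomial_mul_monomial, g_comm, smul_monomial, add_comm])

theorem Gam_mono (L : List G) :
    Gam (mono (sg par) L) = monomial (L.map dgr).sum (mono (sg par) L) := by
  induction L with
  | nil => rw [mono_nil, map_one]; exact monomial_zero_one.symm
  | cons i L ih =>
    have h : Gam (gen (sg par) i) = monomial (dgr i) (g i) := by simp [Gam]
    rw [mono_cons, map_mul, ih, h, monomial_mul_monomial]
    rfl

theorem Gam_Hom {n : ℕ} {a : E} (ha : a ∈ Hom n) : Gam a = monomial n a := by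
  refine spanOf_induct (P := fun a => Gam a = monomial n a) ?_ ?_ ?_ ?_ ha
  · intro L hL
    have hL' : (L.map dgr).sum = n := hL
    rw [Gam_mono, hL']
  · simp
  · intro a b h1 h2; rw [map_add, map_add, h1, h2]
  · intro r a h1; rw [map_smul, h1, smul_monomial]

theorem Gam_eval (a : E) : (Gam a).eval 1 = a := by
  refine mono_induct (P := fun a => (Gam a).eval 1 = a) ?_ ?_ ?_ ?_ a
  · intro L
    rw [Gam_mono, eval_monomial, one_pow, mul_one]
  · simp
  · intro a b h1 h2; rw [map_add, eval_add, h1, h2]
  · intro r a h1; rw [map_smul, eval_smul, h1]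

theorem Gam_coeff (a : E) (n : ℕ) : (Gam a).coeff n ∈ Hom n := by
  refine mono_induct (P := fun a => (Gam a).coeff n ∈ Hom n) ?_ ?_ ?_ ?_ a
  · intro L
    rw [Gam_mono, coeff_monomial]
    split_ifs with h
    · exact mono_mem h
    · exact zero_mem _
  · simp
  · intro a b h1 h2; rw [map_add, coeff_add]; exact add_mem h1 h2
  · intro r a h1; rw [map_smul, coeff_smul]; exact Submodule.smul_mem _ _ h1

theorem Gam_D (a : E) (n : ℕ) : D ((Gam a).coeff n) = (Gam (D a)).coeff (n + 1) := by
  refine mono_induct (P := fun a => D ((Gam a).coeff n) = (Gam (D a)).coeff (n + 1)) ?_ ?_ ?_ ?_ a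
  · intro L
    rw [Gam_mono, Gam_Hom (D_mono_Hom L), coeff_monomial, coeff_monomial]
    by_cases h : (L.map dgr).sum = n
    · simp [h]
    · rw [if_neg h, if_neg (by omega), map_zero]
  · simp
  · intro a b h1 h2; simp only [map_add, coeff_add, h1, h2]
  · intro r a h1; simp only [map_smul, coeff_smul, h1]

/-- the even part -/
noncomputable def Ev : Submodule ℚ E := spanOf (sg par) (fun L => Even (L.map dgr).sum)

theorem Gam_odd {a : E} (ha : a ∈ Ev) {n : ℕ} (hn : ¬ Even n) : (Gam a).coeff n = 0 := by
  refine spanOf_induct (P := fun a => (Gam a).coeff n = 0) ?_ ?_ ?_ ?_ ha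
  · intro L hL
    have hL' : Even (L.map dgr).sum := hL
    rw [Gam_mono, coeff_monomial, if_neg]
    rintro rfl
    exact hn hL'
  · simp
  · intro a b h1 h2; simp only [map_add, coeff_add, h1, h2, add_zero]
  · intro r a h1; simp only [map_smul, coeff_smul, h1, smul_zero]

/-- low degrees -/
noncomputable def W8 : Submodule ℚ E := spanOf (sg par) (fun L => (L.map dgr).sum ≤ 8)

theorem decomp {z : E} (hz : D z = 0) (he : z ∈ Ev) :
    z ∈ ((LinearMap.ker D ⊓ Ev) ⊓ W8) ⊔ LinearMap.range D := by
  have h := Gam_eval z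
  rw [eval_eq_sum_range] at h
  rw [← h]
  refine Submodule.sum_mem _ fun n _ => ?_
  rw [one_pow, mul_one]
  have hc := Gam_coeff z n
  have hD : D ((Gam z).coeff n) = 0 := by rw [Gam_D, hz, map_zero, coeff_zero]
  by_cases hn : Even n
  · by_cases h10 : 10 ≤ n
    · exact Submodule.mem_sup_right (exact_high hn h10 hc hD)
    · refine Submodule.mem_sup_left ⟨⟨hD, ?_⟩, ?_⟩
      · refine spanOf_mono ?_ hc
        intro L hL
        have hL' : (L.map dgr).sum = n := hL
        change Even (L.map dgr).sum
        rw [hL']; exact hn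
      · refine spanOf_mono ?_ hc
        intro L hL
        have hL' : (L.map dgr).sum = n := hL
        change (L.map dgr).sum ≤ 8
        rw [Nat.even_iff] at hn
        omega
  · rw [Gam_odd he hn]
    exact zero_mem _

theorem fin_lists {S : Set G} (hS : S.Finite) (n : ℕ) :
    {L : List G | (∀ i ∈ L, i ∈ S) ∧ L.length ≤ n}.Finite := by
  induction n with
  | zero =>
    refine (Set.finite_singleton ([] : List G)).subset ?_
    rintro L ⟨_, hL⟩
    simpa using hL
  | succ n ih =>
    refine ((Set.finite_singleton ([] : List G)).union (Set.Finite.image2 List.cons hS ih)).subset ?_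
    rintro L ⟨h1, h2⟩
    cases L with
    | nil => left; rfl
    | cons i L =>
      right
      refine ⟨i, h1 i (by simp), L, ⟨fun j hj => h1 j (by simp [hj]), ?_⟩, rfl⟩
      simpa using h2

theorem len_le (L : List G) : 2 * L.length ≤ (L.map dgr).sum := by
  induction L with
  | nil => simp
  | cons i L ih =>
    have := dgr_ge i
    simp only [List.length_cons, List.map_cons, List.sum_cons]
    omega

theorem mem_le {i : G} {L : List G} (h : i ∈ L) :
    dgr i + 2 * (L.length - 1) ≤ (L.map dgr).sum := by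
  induction L with
  | nil => simp at h
  | cons j L ih =>
    simp only [List.length_cons, List.map_cons, List.sum_cons]
    rcases List.mem_cons.1 h with rfl | h
    · have := len_le L
      omega
    · have h1 := ih h
      have h2 : 1 ≤ L.length := List.length_pos_of_mem h
      have h3 := dgr_ge j
      omega

/-- the base generators -/
def B : Set G := {.x, .s, .s2, .v, .y, .z, .r, .h, .r2}

theorem B_fin : B.Finite := by unfold B; exact Set.toFinite _

theorem fin_fd {n : ℕ} (ih : {i | dgr i ≤ n}.Finite) : {m | fd m = n + 1}.Finite := by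
  by_cases hn : Odd (n + 1) ∧ 9 ≤ n + 1
  · obtain ⟨h1, h2⟩ := hn
    have hfin : {L : List G | (L.map dgr).sum = n + 2}.Finite := by
      refine (fin_lists ih (n + 2)).subset ?_
      intro L hL
      have hL' : (L.map dgr).sum = n + 2 := hL
      have h3 : 2 ≤ L.length := len2 (n := n + 2) h1.add_one (by omega) hL'
      refine ⟨fun i hi => ?_, ?_⟩
      · have := mem_le hi
        change dgr i ≤ n
        omega
      · have := len_le L
        omega
    let H : Submodule ℚ E := Hom (n + 2)
    have hH : FiniteDimensional ℚ H := FiniteDimensional.span_of_finite ℚ (hfin.image _)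
    let f : ℕ →o Submodule ℚ H :=
      { toFun := fun m => Submodule.comap H.subtype
          (Submodule.span ℚ {a | ∃ k < m, (fc k : E) = a})
        monotone' := by
          intro a b hab
          apply Submodule.comap_mono
          apply Submodule.span_mono
          rintro _ ⟨k, hk, rfl⟩
          exact ⟨k, by omega, rfl⟩ }
    obtain ⟨N, hN⟩ := (monotone_stabilizes_iff_noetherian (R := ℚ) (M := H)).mpr inferInstance f
    refine (Set.finite_lt_nat (N + n + 1)).subset ?_
    intro m hm
    have hm' : fd m = n + 1 := hm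
    change m < N + n + 1
    by_contra hcon
    obtain ⟨-, -, h3, -, -, h4⟩ := main m
    rcases h4 with h4 | h4
    · apply h4
      have hmem : (fc m : E) ∈ H := by
        have := Lo_Hom h3
        rwa [hm'] at this
      have e1 := hN m (by omega)
      have e2 := hN (m + 1) (by omega)
      have h5 : (⟨fc m, hmem⟩ : H) ∈ f (m + 1) :=
        Submodule.subset_span ⟨m, by omega, rfl⟩
      rw [← e2, e1] at h5
      exact h5
    · omega
  · refine Set.finite_empty.subset ?_
    intro m hm
    have hm' : fd m = n + 1 := hm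
    exact hn ⟨hm' ▸ fd_odd m, hm' ▸ fd_ge m⟩

theorem fin_le (n : ℕ) : {i | dgr i ≤ n}.Finite := by
  induction n with
  | zero =>
    refine Set.finite_empty.subset ?_
    intro i hi
    have hi' : dgr i ≤ 0 := hi
    have := dgr_ge i
    omega
  | succ n ih =>
    refine ((ih.union B_fin).union ((fin_fd ih).image G.w)).subset ?_
    intro i hi
    have hi' : dgr i ≤ n + 1 := hi
    by_cases h : dgr i ≤ n
    · exact Or.inl (Or.inl h)
    · cases i with
      | w m =>
        right
        refine ⟨m, ?_, rfl⟩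
        change fd m = n + 1
        have : dgr (.w m) = fd m := rfl
        omega
      | _ => left; right; simp [B]

theorem fin_even : {i | Even (dgr i)}.Finite := by
  refine B_fin.subset ?_
  intro i hi
  have hi' : Even (dgr i) := hi
  cases i with
  | w m =>
    exfalso
    have h1 := fd_odd m
    have h2 : dgr (.w m) = fd m := rfl
    rw [h2] at hi'
    exact (Nat.not_even_iff_odd.2 h1) hi'
  | _ => simp [B]

theorem W8_fin : FiniteDimensional ℚ W8 := by
  refine FiniteDimensional.span_of_finite ℚ (Set.Finite.image _ ?_)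
  refine (fin_lists (fin_le 8) 8).subset ?_
  intro L hL
  have hL' : (L.map dgr).sum ≤ 8 := hL
  refine ⟨fun i hi => ?_, ?_⟩
  · have := mem_le hi
    change dgr i ≤ 8
    omega
  · have := len_le L
    omega

/-- the even cohomology is finite dimensional -/
theorem Hev_fin : Module.Finite ℚ
    (↥(LinearMap.ker D ⊓ Ev) ⧸ (LinearMap.range D).comap (LinearMap.ker D ⊓ Ev).subtype) := by
  have h8 := W8_fin
  have h9 : FiniteDimensional ℚ ↥((LinearMap.ker D ⊓ Ev) ⊓ W8) :=
    Submodule.finiteDimensional_of_le inf_le_right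
  let f : ↥((LinearMap.ker D ⊓ Ev) ⊓ W8) →ₗ[ℚ]
      (↥(LinearMap.ker D ⊓ Ev) ⧸ (LinearMap.range D).comap (LinearMap.ker D ⊓ Ev).subtype) :=
    (Submodule.mkQ _) ∘ₗ (Submodule.inclusion inf_le_left)
  refine Module.Finite.of_surjective f ?_
  intro q
  obtain ⟨z, rfl⟩ := Submodule.mkQ_surjective _ q
  have hz := decomp z.2.1 z.2.2
  rw [Submodule.mem_sup] at hz
  obtain ⟨l, hl, b, hb, hlb⟩ := hz
  refine ⟨⟨l, hl⟩, ?_⟩
  change Submodule.Quotient.mk _ = Submodule.Quotient.mk _
  rw [Submodule.Quotient.eq, Submodule.mem_comap]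
  have : ((LinearMap.ker D ⊓ Ev).subtype (Submodule.inclusion inf_le_left ⟨l, hl⟩ - z)) = -b := by
    change l - (z : E) = -b
    rw [← hlb]; abel
  rw [this]
  exact neg_mem hb

end Pool.H582SA
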