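import Pool.Agent.H582SA.C

/-!
The inductive construction of the Sullivan algebra (MP_3de1ca_gt, helper582).
-/

namespace Pool.H582SA

open Polynomial

/-- the generators -/
inductive G : Type
  | x | s | s2 | v | y | z | r | h | r2
  | w (m : ℕ)
  deriving Countable

/-- their parities -/
def par : G → ℕ
  | .x => 0 | .s => 0 | .s2 => 0 | .v => 0
  | .y => 1 | .z => 1 | .r => 1 | .h => 1 | .r2 => 1
  | .w _ => 1

/-- the free graded commutative algebra -/
abbrev E := FGC (sg par)

/-- its generators -/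
noncomputable def g (i : G) : E := gen (sg par) i

/-- generators available before step `m` -/
def Al (m : ℕ) : G → Prop
  | .w k => k < m
  | _ => True

/-- the degrees -/
def deg (dg : ℕ → ℕ) : G → ℕ
  | .x => 2 | .s => 4 | .s2 => 6 | .v => 8
  | .y => 3 | .z => 3 | .r => 5 | .h => 7 | .r2 => 7
  | .w m => dg m

/-- the differential on generators -/
noncomputable def Dg (c : ℕ → Par par 0) : G → E
  | .x => 0 | .y => 0
  | .z => g .x * g .x
  | .s => g .x * g .y
  | .r => g .x * g .s - g .z * g .y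
  | .s2 => g .s * g .y
  | .h => g .s * g .s - (2 : ℚ) • (g .r * g .y)
  | .r2 => g .x * g .s2 - g .r * g .y
  | .v => g .x * g .h - g .x * g .r2 - g .r * g .s + g .z * g .s2
  | .w m => c m

theorem gg_mem {i j : G} {n : ℕ} (h : (par i + par j) % 2 = n % 2) : g i * g j ∈ Par par n := by
  have : g i * g j = mono (sg par) [i, j] := by simp [g]
  rw [this]
  exact mono_mem (by simpa using h)

theorem Dg_mem (c : ℕ → Par par 0) (i : G) : Dg c i ∈ Par par (par i + 1) := by
  cases i with
  | x => exact zero_mem _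
  | y => exact zero_mem _
  | z => exact gg_mem rfl
  | s => exact gg_mem rfl
  | s2 => exact gg_mem rfl
  | r => exact sub_mem (gg_mem rfl) (gg_mem rfl)
  | h => exact sub_mem (gg_mem rfl) (Submodule.smul_mem _ _ (gg_mem rfl))
  | r2 => exact sub_mem (gg_mem rfl) (gg_mem rfl)
  | v => exact add_mem (sub_mem (sub_mem (gg_mem rfl) (gg_mem rfl)) (gg_mem rfl)) (gg_mem rfl)
  | w m =>
    have h : Par par (par (.w m) + 1) = Par par 0 := by simp [Par, par]
    rw [h]
    exact (c m).2

/-- the differential -/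
noncomputable def DD (c : ℕ → Par par 0) : E →ₗ[ℚ] E := mkD (Dg c) (Dg_mem c)

/-- the map to `C` on generators -/
noncomputable def rg (e : ℕ → ℚ[X]) : G → C
  | .x => C.ex | .s => C.es | .y => C.ey | .r => C.er | .v => C.et
  | .s2 => 0 | .z => 0 | .h => 0 | .r2 => 0
  | .w m => C.gr (e m)

theorem rg_odd (e : ℕ → ℚ[X]) (i : G) (hi : par i = 1) :
    (rg e i).a0 = 0 ∧ (rg e i).a1 = 0 ∧ (rg e i).a2 = 0 ∧ (rg e i).a3 = 0 := by
  cases i <;> first | (simp [par] at hi; done) | simp [rg, C.ex, C.es, C.ey, C.er, C.et, C.gr]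

theorem par_cases (i : G) : par i = 0 ∨ par i = 1 := by
  cases i <;> simp [par]

theorem rg_rel (e : ℕ → ℚ[X]) (i j : G) :
    rg e i * rg e j = sg par i j • (rg e j * rg e i) := by
  rcases par_cases i with hi | hi
  · rw [sg, hi, zero_mul, pow_zero, one_smul, mul_comm]
  · rcases par_cases j with hj | hj
    · rw [sg, hj, mul_zero, pow_zero, one_smul, mul_comm]
    · obtain ⟨h0, h1, h2, h3⟩ := rg_odd e i hi
      obtain ⟨k0, k1, k2, k3⟩ := rg_odd e j hj
      have e1 : rg e i * rg e j = 0 := by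
        ext1 <;> simp [h0, h1, h2, h3, k0, k1, k2, k3]
      rw [mul_comm (rg e j), e1, smul_zero]

/-- the map to `C` -/
noncomputable def rho (e : ℕ → ℚ[X]) : E →ₐ[ℚ] C := lift (rg e) (rg_rel e)

theorem rho_g (e : ℕ → ℚ[X]) (i : G) : rho e (g i) = rg e i := by simp [rho, g]

theorem mkD_congr {p : G → ℕ} (D D' : G → FGC (sg p)) (hD : ∀ i, D i ∈ Par p (p i + 1))
    (hD' : ∀ i, D' i ∈ Par p (p i + 1)) (L : List G) (h : ∀ i ∈ L, D i = D' i) :
    mkD D hD (mono (sg p) L) = mkD D' hD' (mono (sg p) L) := by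
  induction L with
  | nil => rw [mono_nil, mkD_one, mkD_one]
  | cons i L ih =>
    rw [mono_cons, mkD_mul, mkD_mul, mkD_gen, mkD_gen, ih (fun j hj => h j (by simp [hj])),
      h i (by simp)]

theorem rho_congr (e e' : ℕ → ℚ[X]) (L : List G) (h : ∀ i ∈ L, rg e i = rg e' i) :
    rho e (mono (sg par) L) = rho e' (mono (sg par) L) := by
  induction L with
  | nil => simp
  | cons i L ih =>
    rw [mono_cons, map_mul, map_mul, ih (fun j hj => h j (by simp [hj]))]
    have := h i (by simp)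
    rw [← rho_g, ← rho_g] at this
    rw [show gen (sg par) i = g i from rfl, this]

instance : Countable E := by
  have : Function.Surjective (Finsupp.linearCombination ℚ (mono (sg par))) := by
    rw [← LinearMap.range_eq_top, Finsupp.range_linearCombination]
    rw [eq_top_iff]
    intro a _
    have := mem_top_span a
    unfold spanOf at this
    simpa using this
  exact this.countable

theorem exists_cand : ∃ f : ℕ → E, ∀ a N, ∃ m, N ≤ m ∧ f m = a := by
  obtain ⟨f, hf⟩ := exists_surjective_nat E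
  refine ⟨fun m => f m.unpair.1, fun a N => ?_⟩
  obtain ⟨k, rfl⟩ := hf a
  exact ⟨Nat.pair k N, Nat.right_le_pair k N, by simp⟩

/-- an enumeration of `E` -/
noncomputable def cand : ℕ → E := exists_cand.choose

theorem cand_spec : ∀ a N, ∃ m, N ≤ m ∧ cand m = a := exists_cand.choose_spec

/-- the data attached to the generator `w m`: differential, degree, value of the map to `C` -/
abbrev St := ↥(Par par 0) × ℕ × ℚ[X]

/-- span of the monomials in generators available before step `m` and of degree `n` -/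
noncomputable def Lo (dg : ℕ → ℕ) (m n : ℕ) : Submodule ℚ E :=
  spanOf (sg par) (fun L => (∀ i ∈ L, Al m i) ∧ (L.map (deg dg)).sum = n)

/-- acceptance condition -/
def Cond (F : ℕ → St) (m d : ℕ) : Prop :=
  Odd d ∧ 9 ≤ d ∧ cand m ∈ Par par 0 ∧ cand m ∈ Lo (fun k => (F k).2.1) m (d + 1) ∧
    DD (fun k => (F k).1) (cand m) = 0 ∧
    cand m ∉ Submodule.span ℚ {a | ∃ k < m, ((F k).1 : E) = a}

open Classical in
/-- the step -/
noncomputable def step (F : ℕ → St) (m : ℕ) : St :=
  if h : ∃ d, Cond F m d then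
    (⟨cand m, h.choose_spec.2.2.1⟩, h.choose, (rho (fun k => (F k).2.2) (cand m)).a3)
  else (0, 2 * m + 9, 0)

/-- the recursion -/
noncomputable def F (m : ℕ) : St :=
  step (fun k => if h : k < m then F k else (0, 9, 0)) m
termination_by m
decreasing_by exact h

/-- truncation -/
noncomputable def tr (m k : ℕ) : St := if k < m then F k else (0, 9, 0)

theorem F_eq (m : ℕ) : F m = step (tr m) m := by
  rw [F]
  congr 1

/-- differentials of the `w m` -/
noncomputable def fc (m : ℕ) : Par par 0 := (F m).1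
/-- degrees of the `w m` -/
noncomputable def fd (m : ℕ) : ℕ := (F m).2.1
/-- values of the `w m` -/
noncomputable def fe (m : ℕ) : ℚ[X] := (F m).2.2

theorem deg_tr {m : ℕ} {i : G} (h : Al m i) :
    deg (fun k => (tr m k).2.1) i = deg fd i := by
  cases i with
  | w k => simp only [Al] at h; simp [deg, tr, h, fd]
  | _ => rfl

theorem Dg_tr {m : ℕ} {i : G} (h : Al m i) :
    Dg (fun k => (tr m k).1) i = Dg fc i := by
  cases i with
  | w k => simp only [Al] at h; simp [Dg, tr, h, fc]
  | _ => rfl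

theorem rg_tr {m : ℕ} {i : G} (h : Al m i) :
    rg (fun k => (tr m k).2.2) i = rg fe i := by
  cases i with
  | w k => simp only [Al] at h; simp [rg, tr, h, fe]
  | _ => rfl

theorem Lo_tr (m n : ℕ) : Lo (fun k => (tr m k).2.1) m n = Lo fd m n := by
  unfold Lo
  congr 1
  funext L
  apply propext
  constructor
  · rintro ⟨h1, h2⟩
    refine ⟨h1, ?_⟩
    rw [← h2]
    congr 1
    apply List.map_congr_left
    intro i hi
    rw [deg_tr (h1 i hi)]
  · rintro ⟨h1, h2⟩
    refine ⟨h1, ?_⟩
    rw [← h2]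
    congr 1
    apply List.map_congr_left
    intro i hi
    rw [deg_tr (h1 i hi)]

theorem DD_tr {m n : ℕ} {dg : ℕ → ℕ} {a : E} (ha : a ∈ Lo dg m n) :
    DD (fun k => (tr m k).1) a = DD fc a := by
  refine spanOf_induct (P := fun a => DD (fun k => (tr m k).1) a = DD fc a) ?_ ?_ ?_ ?_ ha
  · rintro L ⟨hL, _⟩
    exact mkD_congr _ _ _ _ L (fun i hi => Dg_tr (hL i hi))
  · simp
  · intro a b h1 h2; rw [map_add, map_add, h1, h2]
  · intro r a h1; rw [map_smul, map_smul, h1]

theorem rho_tr {m n : ℕ} {dg : ℕ → ℕ} {a : E} (ha : a ∈ Lo dg m n) :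
    rho (fun k => (tr m k).2.2) a = rho fe a := by
  refine spanOf_induct (P := fun a => rho (fun k => (tr m k).2.2) a = rho fe a) ?_ ?_ ?_ ?_ ha
  · rintro L ⟨hL, _⟩
    exact rho_congr _ _ L (fun i hi => rg_tr (hL i hi))
  · simp
  · intro a b h1 h2; rw [map_add, map_add, h1, h2]
  · intro r a h1; rw [map_smul, map_smul, h1]

theorem span_tr (m : ℕ) : Submodule.span ℚ {a | ∃ k < m, ((tr m k).1 : E) = a}
    = Submodule.span ℚ {a | ∃ k < m, (fc k : E) = a} := by
  congr 1
  ext a
  constructor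
  · rintro ⟨k, hk, h⟩; exact ⟨k, hk, by simpa [tr, hk, fc] using h⟩
  · rintro ⟨k, hk, h⟩; exact ⟨k, hk, by simpa [tr, hk, fc] using h⟩

/-- the main facts on the recursion -/
theorem main (m : ℕ) : Odd (fd m) ∧ 9 ≤ fd m ∧ (fc m : E) ∈ Lo fd m (fd m + 1) ∧
    DD fc (fc m) = 0 ∧ fe m = (rho fe (fc m)).a3 ∧
    ((fc m : E) ∉ Submodule.span ℚ {a | ∃ k < m, (fc k : E) = a} ∨ fd m = 2 * m + 9) := by
  by_cases h : ∃ d, Cond (tr m) m d
  · have hF : F m = (⟨cand m, h.choose_spec.2.2.1⟩, h.choose,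
      (rho (fun k => (tr m k).2.2) (cand m)).a3) := by
      rw [F_eq, step, dif_pos h]
    obtain ⟨h1, h2, h3, h4, h5, h6⟩ := h.choose_spec
    have c1 : (fc m : E) = cand m := by rw [fc, hF]
    have c2 : fd m = h.choose := by rw [fd, hF]
    have c3 : fe m = (rho (fun k => (tr m k).2.2) (cand m)).a3 := by rw [fe, hF]
    rw [Lo_tr] at h4
    rw [DD_tr h4] at h5
    rw [span_tr] at h6
    rw [rho_tr h4] at c3
    refine ⟨c2 ▸ h1, c2 ▸ h2, ?_, ?_, ?_, ?_⟩
    · rw [c1, c2]; exact h4
    · rw [c1]; exact h5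
    · rw [c1]; exact c3
    · left; rw [c1]; exact h6
  · have hF : F m = (0, 2 * m + 9, 0) := by
      rw [F_eq, step, dif_neg h]
    have c1 : (fc m : E) = 0 := by rw [fc, hF]; rfl
    have c2 : fd m = 2 * m + 9 := by rw [fd, hF]
    have c3 : fe m = 0 := by rw [fe, hF]
    refine ⟨?_, by omega, ?_, ?_, ?_, Or.inr c2⟩
    · rw [c2]; exact ⟨m + 4, by ring⟩
    · rw [c1]; exact zero_mem _
    · rw [c1, map_zero]
    · rw [c1, c3, map_zero]; rfl

/-- elements of the span of `fc` -/
theorem accept {d : ℕ} (hd : Odd d) (h9 : 9 ≤ d) {a : E} (ha : a ∈ Par par 0) {N : ℕ}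
    (hN : a ∈ Lo fd N (d + 1)) (hD : DD fc a = 0) :
    a ∈ Submodule.span ℚ (Set.range fun k => (fc k : E)) := by
  obtain ⟨m, hm, hc⟩ := cand_spec a N
  have hLo : a ∈ Lo fd m (d + 1) := by
    refine spanOf_mono ?_ hN
    rintro L ⟨h1, h2⟩
    refine ⟨fun i hi => ?_, h2⟩
    have := h1 i hi
    cases i with
    | w k => simp only [Al] at this ⊢; omega
    | _ => trivial
  by_cases hs : a ∈ Submodule.span ℚ {a | ∃ k < m, (fc k : E) = a}
  · refine Submodule.span_mono ?_ hs
    rintro _ ⟨k, _, rfl⟩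
    exact ⟨k, rfl⟩
  · have h : ∃ d, Cond (tr m) m d := by
      refine ⟨d, hd, h9, ?_, ?_, ?_, ?_⟩
      · rw [hc]; exact ha
      · rw [hc, Lo_tr]; exact hLo
      · rw [hc, DD_tr hLo]; exact hD
      · rw [hc, span_tr]; exact hs
    have hF : F m = (⟨cand m, h.choose_spec.2.2.1⟩, h.choose,
      (rho (fun k => (tr m k).2.2) (cand m)).a3) := by
      rw [F_eq, step, dif_pos h]
    have c1 : (fc m : E) = cand m := by rw [fc, hF]
    rw [← hc, ← c1]
    exact Submodule.subset_span ⟨m, rfl⟩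

end Pool.H582SA
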